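import Mathlib
import Pool.Agent.H.MP_3e3c2c_co.D

namespace Pool.Agent.Results.MP_3e3c2c_co.Counter

variable {n r : ℕ}

/-- the edges of `G` that have colour `c` -/
def cls (G : SimpleGraph (Fin n)) (χ : Sym2 (Fin n) → Fin r) (c : Fin r) : SimpleGraph (Fin n) :=
  G ⊓ SimpleGraph.fromEdgeSet {e | χ e = c}

/-- `S` is the vertex set of a monochromatic tree (single vertices included) -/
def MonoTree (G : SimpleGraph (Fin n)) (χ : Sym2 (Fin n) → Fin r) (S : Set (Fin n)) : Prop :=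
  ∃ (c : Fin r) (H : (cls G χ c).Subgraph), H.coe.IsTree ∧ H.verts = S

/-- `tc(G)`: the least size of a tree cover -/
noncomputable def tc (G : SimpleGraph (Fin n)) (χ : Sym2 (Fin n) → Fin r) : ℕ :=
  sInf {k | ∃ T : Fin k → Set (Fin n), (∀ i, MonoTree G χ (T i)) ∧ ∀ v, ∃ i, v ∈ T i}

/-- `tc_r(δ)` -/
noncomputable def tcr (r : ℕ) (δ : ℝ) : ℕ∞ :=
  Filter.limsup (fun n : ℕ => ⨆ (G : SimpleGraph (Fin n)) (χ : Sym2 (Fin n) → Fin r)
    (_ : ∀ v, (1 - δ) * n ≤ (G.neighborSet v).ncard), (tc G χ : ℕ∞)) Filter.atTop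

theorem result (K : ℝ) (hK : 0 < K) : ∃ (r : ℕ) (δ : ℝ), 2 ≤ r ∧ 0 < δ ∧ δ < 1 ∧
    ∃ t : ℕ, K * r * ⌈r / Real.log (1 / δ)⌉ < t ∧ (t : ℕ∞) ≤ tcr r δ := by
  obtain ⟨r, δ, t, hr, h0, h1, ht, H⟩ := Pool.Agent.H.MP_3e3c2c_co.main K hK
  refine ⟨r, δ, hr, h0, by linarith, t + 1, by push_cast; linarith, ?_⟩
  refine Filter.le_limsup_of_frequently_le (Filter.frequently_atTop.2 fun N => ?_)
  obtain ⟨n, hn, G, χ, hd, hc⟩ := H N
  refine ⟨n, hn, le_iSup_of_le G (le_iSup_of_le χ (le_iSup_of_le hd ?_))⟩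
  refine Nat.cast_le.2 (le_csInf ⟨n, fun i => {i},
    fun i => ⟨⟨0, by omega⟩, SimpleGraph.singletonSubgraph _ _, ?_, rfl⟩, fun x => ⟨x, rfl⟩⟩ ?_)
  · exact ⟨SimpleGraph.Subgraph.singletonSubgraph_connected.coe, fun v w hw => by
      cases w with
      | nil => exact hw.ne_nil rfl
      | cons h _ => exact h⟩
  rintro k ⟨T, hT, hcov⟩
  refine hc k T (fun i => ?_) hcov
  obtain ⟨c, S, hS, e⟩ := hT i
  refine ⟨c, fun x hx y hy => ?_⟩
  rw [← e] at hx hy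
  have := (hS.1 ⟨x, hx⟩ ⟨y, hy⟩).map S.hom
  exact SimpleGraph.Reachable.mono (G := cls G χ c) (fun a b h => ⟨h.1, h.2.1⟩) this

end Pool.Agent.Results.MP_3e3c2c_co.Counter
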